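import Pool.Agent.H.MP_add580_gt.B

namespace Pool.Agent.Results.MP_add580_gt.Yes
open Pool.Agent.H.MP_add580_gt

theorem result : ∃ n : ℕ, n % 4 = 1 ∧ Pair (EuclideanSpace ℝ (Fin (n + 1))) :=
  ⟨17, rfl, _, _, spaceForm (1, 0), spaceForm (0, 1), iso_spec,
    ⟨fun e => not_iso.false (((isoΓ _).trans e).trans (isoΓ _).symm)⟩⟩

end Pool.Agent.Results.MP_add580_gt.Yes
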